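import Mathlib
import Pool.Agent.PZ871.Defs

/-!
# The measure of spherical caps, from below
-/

set_option autoImplicit false

open MeasureTheory Set
open scoped RealInnerProductSpace ENNReal

namespace Pool.Agent.J4H22.RP

open Pool.Agent.PZ871 (E)

variable {d : ℕ}

/-- the uniform distribution on the unit sphere of `ℝ^d`: the direction of a random point of the
unit ball -/
noncomputable def sigma (d : ℕ) : Measure (E d) :=
  (ProbabilityTheory.cond volume (Metric.ball (0 : E d) 1)).map (fun x => ‖x‖⁻¹ • x)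

theorem meas_dir : Measurable (fun x : E d => ‖x‖⁻¹ • x) :=
  (measurable_norm.inv).smul measurable_id

instance : IsProbabilityMeasure (sigma d) := by
  have h0 : (volume (Metric.ball (0 : E d) 1)) ≠ 0 := (Metric.measure_ball_pos _ _ one_pos).ne'
  have : IsProbabilityMeasure (ProbabilityTheory.cond volume (Metric.ball (0 : E d) 1)) :=
    ProbabilityTheory.cond_isProbabilityMeasure_of_finite h0 measure_ball_lt_top.ne
  exact Measure.isProbabilityMeasure_map meas_dir.aemeasurable

/-- the linear map which contracts by `h` in the direction `u` and by `b` orthogonally to it -/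
noncomputable def ell (u : E d) (h b : ℝ) : E d →ₗ[ℝ] E d :=
  b • LinearMap.transvection (innerₛₗ ℝ u) (((h - b) / b) • u)

theorem ell_apply {u : E d} {h b : ℝ} (hb : b ≠ 0) (x : E d) :
    ell u h b x = b • x + ((h - b) * ⟪u, x⟫) • u := by
  simp only [ell, LinearMap.smul_apply, LinearMap.transvection.apply, innerₛₗ_apply_apply,
    smul_add, smul_smul]
  congr 2
  field_simp

theorem det_ell {u : E d} (hd : 1 ≤ d) (hu : ‖u‖ = 1) {h b : ℝ} (hb : b ≠ 0) :
    LinearMap.det (ell u h b) = h * b ^ (d - 1) := by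
  rw [ell, LinearMap.det_smul, LinearMap.transvection.det, finrank_euclideanSpace_fin,
    innerₛₗ_apply_apply, inner_smul_right, real_inner_self_eq_norm_sq, hu]
  obtain ⟨e, rfl⟩ : ∃ e, d = e + 1 := ⟨d - 1, by omega⟩
  rw [Nat.add_sub_cancel, pow_succ]
  field_simp
  ring

theorem norm_ell_sq {u : E d} (hu : ‖u‖ = 1) {h b : ℝ} (hb : b ≠ 0) (x : E d) (a : ℝ) :
    ‖a • u + ell u h b x‖ ^ 2 = (a + h * ⟪u, x⟫) ^ 2 + b ^ 2 * (‖x‖ ^ 2 - ⟪u, x⟫ ^ 2) := by
  rw [ell_apply hb]
  have e : a • u + (b • x + ((h - b) * ⟪u, x⟫) • u) = b • x + (a + (h - b) * ⟪u, x⟫) • u := by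
    rw [add_smul]; abel
  rw [e, norm_add_sq_real, norm_smul, norm_smul, inner_smul_left, inner_smul_right, hu,
    real_inner_comm u x]
  simp only [Real.norm_eq_abs, mul_pow, sq_abs, conj_trivial, mul_one, one_pow]
  ring

theorem inner_ell {u : E d} (hu : ‖u‖ = 1) {h b : ℝ} (hb : b ≠ 0) (x : E d) (a : ℝ) :
    ⟪a • u + ell u h b x, u⟫ = a + h * ⟪u, x⟫ := by
  rw [ell_apply hb, inner_add_left, inner_add_left, inner_smul_left, inner_smul_left,
    inner_smul_left, real_inner_self_eq_norm_sq, hu, real_inner_comm u x]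
  simp only [conj_trivial]
  ring

/-- lower bound for the measure of a cap -/
theorem cap_bound (hd : 1 ≤ d) {u : E d} (hu : ‖u‖ = 1) {t h b : ℝ} (ht : 0 ≤ t) (hh : 0 < h)
    (hb : 0 < b) (hb2 : (t + 2 * h) ^ 2 + b ^ 2 ≤ 1) :
    ENNReal.ofReal (h * b ^ (d - 1)) ≤ sigma d {y | t ≤ ⟪y, u⟫} := by
  have hm : MeasurableSet {y : E d | t ≤ ⟪y, u⟫} :=
    measurableSet_le measurable_const (by fun_prop)
  rw [sigma, Measure.map_apply meas_dir hm, ProbabilityTheory.cond_apply Metric.isOpen_ball.measurableSet]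
  have hsub : (fun x => (t + h) • u + x) '' (ell u h b '' Metric.ball (0 : E d) 1) ⊆
      Metric.ball (0 : E d) 1 ∩ (fun x => ‖x‖⁻¹ • x) ⁻¹' {y | t ≤ ⟪y, u⟫} := by
    rintro _ ⟨_, ⟨x, hx, rfl⟩, rfl⟩
    have hx1 : ‖x‖ < 1 := by simpa using hx
    have hin : |⟪u, x⟫| < 1 := by
      have := abs_real_inner_le_norm u x
      rw [hu, one_mul] at this
      exact this.trans_lt hx1
    obtain ⟨hl, hr⟩ := abs_lt.1 hin
    have hn : ‖(t + h) • u + ell u h b x‖ ^ 2 < 1 := by
      rw [norm_ell_sq hu hb.ne']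
      have h1 : (t + h + h * ⟪u, x⟫) ^ 2 ≤ (t + 2 * h) ^ 2 := by
        apply pow_le_pow_left₀
        · nlinarith
        · nlinarith
      have h2 : b ^ 2 * (‖x‖ ^ 2 - ⟪u, x⟫ ^ 2) < b ^ 2 := by
        have h3 : ‖x‖ ^ 2 < 1 := by nlinarith [norm_nonneg x]
        have h4 : 0 < b ^ 2 := by positivity
        nlinarith [sq_nonneg ⟪u, x⟫]
      linarith
    have hn1 : ‖(t + h) • u + ell u h b x‖ < 1 := by
      nlinarith [norm_nonneg ((t + h) • u + ell u h b x)]
    have hi : ⟪(t + h) • u + ell u h b x, u⟫ = t + h + h * ⟪u, x⟫ := inner_ell hu hb.ne' x _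
    have hi' : t < ⟪(t + h) • u + ell u h b x, u⟫ := by rw [hi]; nlinarith
    refine ⟨by simpa using hn1, ?_⟩
    have hpos : 0 < ‖(t + h) • u + ell u h b x‖ := by
      rw [norm_pos_iff]
      intro h0
      rw [h0, inner_zero_left] at hi'
      linarith
    change t ≤ ⟪‖(t + h) • u + ell u h b x‖⁻¹ • ((t + h) • u + ell u h b x), u⟫
    rw [inner_smul_left, conj_trivial, inv_mul_eq_div, le_div_iff₀ hpos]
    nlinarith
  have hvol : volume ((fun x => (t + h) • u + x) '' (ell u h b '' Metric.ball (0 : E d) 1)) =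
      ENNReal.ofReal (h * b ^ (d - 1)) * volume (Metric.ball (0 : E d) 1) := by
    rw [image_add_left, measure_preimage_add, Measure.addHaar_image_linearMap, det_ell hd hu hb.ne',
      abs_of_pos (by positivity)]
  have h0 : (volume (Metric.ball (0 : E d) 1)) ≠ 0 := (Metric.measure_ball_pos _ _ one_pos).ne'
  have h1 : (volume (Metric.ball (0 : E d) 1)) ≠ ⊤ := measure_ball_lt_top.ne
  calc ENNReal.ofReal (h * b ^ (d - 1))
      = (volume (Metric.ball (0 : E d) 1))⁻¹ *
        (ENNReal.ofReal (h * b ^ (d - 1)) * volume (Metric.ball (0 : E d) 1)) := by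
        rw [mul_comm (ENNReal.ofReal _), ← mul_assoc, ENNReal.inv_mul_cancel h0 h1, one_mul]
    _ ≤ _ := by
        rw [← hvol]
        gcongr

end Pool.Agent.J4H22.RP
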