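import Mathlib
import Pool.Agent.J4H22.RP.Cap
import Pool.Agent.H815R2.HadCover

/-!
# Finite sets and random sets which meet all spherical caps of a given size
-/

set_option autoImplicit false

open MeasureTheory Set ProbabilityTheory
open scoped RealInnerProductSpace ENNReal

namespace Pool.Agent.J4H22.RP

open Pool.Agent.PZ871 (E)

variable {d : ℕ}

/-- a net of the sphere -/
theorem sphere_net {δ : ℝ} (hδ : 0 < δ) (hδ1 : δ < 1) :
    ∃ N : Finset (E d), (∀ a ∈ N, ‖a‖ = 1) ∧ (∀ u : E d, ‖u‖ = 1 → ∃ a ∈ N, ‖u - a‖ ≤ 2 * δ) ∧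
      (N.card : ℝ) ≤ (1 + 2 / δ) ^ d := by
  classical
  have hset : {y : E d | normSeminorm ℝ (E d) y ≤ 1} = Metric.closedBall 0 1 := by
    ext y; simp
  obtain ⟨S, h1, h2, h3⟩ := Pool.Agent.H815R2.Had.exists_net (E := E d) volume (normSeminorm ℝ (E d))
    (by exact continuous_norm) (by
      rw [hset]
      exact (Metric.measure_closedBall_pos _ _ one_pos).ne') (by
      rw [hset]
      exact measure_closedBall_lt_top.ne) δ hδ
  refine ⟨(S.filter (fun s => s ≠ 0)).image (fun s => ‖s‖⁻¹ • s), ?_, ?_, ?_⟩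
  · intro a ha
    obtain ⟨s, hs, rfl⟩ := Finset.mem_image.1 ha
    have hs0 := (Finset.mem_filter.1 hs).2
    rw [norm_smul, norm_inv, norm_norm, inv_mul_cancel₀ (norm_ne_zero_iff.2 hs0)]
  · intro u hu
    obtain ⟨s, hs, hus⟩ := h2 u (by simp [hu])
    have hus' : ‖u - s‖ ≤ δ := hus
    have hs0 : s ≠ 0 := by
      rintro rfl
      rw [sub_zero, hu] at hus'
      linarith
    refine ⟨_, Finset.mem_image_of_mem _ (Finset.mem_filter.2 ⟨hs, hs0⟩), ?_⟩
    have hn : 0 < ‖s‖ := norm_pos_iff.2 hs0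
    have hn1 : ‖s‖ ≤ 1 := h1 s hs
    have hn2 : 1 - δ ≤ ‖s‖ := by
      have := norm_sub_norm_le u s
      rw [hu] at this
      linarith
    have h4 : ‖s - ‖s‖⁻¹ • s‖ ≤ δ := by
      have e : s - ‖s‖⁻¹ • s = (1 - ‖s‖⁻¹) • s := by rw [sub_smul, one_smul]
      rw [e, norm_smul, Real.norm_eq_abs]
      have h5 : 1 - ‖s‖⁻¹ ≤ 0 := by
        have := (one_le_inv₀ hn).2 hn1
        linarith
      rw [abs_of_nonpos h5]
      have h6 : -(1 - ‖s‖⁻¹) * ‖s‖ = 1 - ‖s‖ := by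
        field_simp
        ring
      rw [h6]
      linarith
    calc ‖u - ‖s‖⁻¹ • s‖ = ‖(u - s) + (s - ‖s‖⁻¹ • s)‖ := by congr 1; abel
      _ ≤ ‖u - s‖ + ‖s - ‖s‖⁻¹ • s‖ := norm_add_le _ _
      _ ≤ 2 * δ := by linarith
  · refine le_trans ?_ (h3.trans (le_of_eq ?_))
    · exact_mod_cast Finset.card_image_le.trans (Finset.card_filter_le _ _)
    · rw [finrank_euclideanSpace_fin]

/-- some point lies in at least the average number of sets -/
theorem exists_count {X : Type*} [MeasurableSpace X] (μ : Measure X) [IsProbabilityMeasure μ]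
    {ι : Type*} (A : Finset ι) (S : ι → Set X) (hS : ∀ i ∈ A, MeasurableSet (S i)) (p : ℝ)
    (hp : ∀ i ∈ A, ENNReal.ofReal p ≤ μ (S i)) :
    ∃ x, p * A.card ≤ ((open Classical in A.filter (fun i => x ∈ S i)).card : ℝ) := by
  classical
  have hint : ∀ i ∈ A, Integrable ((S i).indicator (fun _ => (1 : ℝ))) μ := fun i hi =>
    (integrable_const 1).indicator (hS i hi)
  obtain ⟨x, hx⟩ := exists_integral_le (μ := μ)
    (f := fun x => ∑ i ∈ A, (S i).indicator (fun _ => (1 : ℝ)) x) (integrable_finsetSum _ hint)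
  refine ⟨x, ?_⟩
  rw [integral_finsetSum _ hint] at hx
  have h1 : p * A.card ≤ ∑ i ∈ A, ∫ x, (S i).indicator (fun _ => (1 : ℝ)) x ∂μ := by
    rw [mul_comm, ← nsmul_eq_mul]
    refine Finset.card_nsmul_le_sum _ _ _ fun i hi => ?_
    rw [integral_indicator_const _ (hS i hi), smul_eq_mul, mul_one]
    have h2 := hp i hi
    rw [Measure.real, ← ENNReal.ofReal_le_iff_le_toReal (measure_ne_top _ _)]
    exact h2
  refine h1.trans (hx.trans (le_of_eq ?_))
  rw [Finset.card_filter]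
  push_cast
  refine Finset.sum_congr rfl fun i _ => ?_
  by_cases h : x ∈ S i
  · simp [h]
  · simp [h]

/-- a small set of directions meeting all caps -/
theorem hit_det (hd : 1 ≤ d) {t δ h b : ℝ} (ht : 0 ≤ t) (hδ : 0 < δ) (hh : 0 < h) (hb : 0 < b)
    (hb2 : (t + 2 * δ + 2 * h) ^ 2 + b ^ 2 ≤ 1) :
    ∃ D : Finset (E d), (∀ e ∈ D, ‖e‖ ≤ 1) ∧ (∀ u : E d, ‖u‖ = 1 → ∃ e ∈ D, t ≤ ⟪e, u⟫) ∧
      (D.card : ℝ) ≤ d * Real.log (1 + 2 / δ) / (h * b ^ (d - 1)) + 1 := by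
  classical
  have hb1 : b ≤ 1 := by nlinarith [sq_nonneg (t + 2 * δ + 2 * h)]
  have hsum : t + 2 * δ + 2 * h ≤ 1 := by nlinarith [sq_nonneg b]
  have hδ1 : δ < 1 := by linarith
  have hp0 : 0 < h * b ^ (d - 1) := by positivity
  have hp1 : h * b ^ (d - 1) ≤ 1 := by
    have h1 : b ^ (d - 1) ≤ 1 := pow_le_one₀ hb.le hb1
    nlinarith [pow_pos hb (d - 1)]
  obtain ⟨N, hN1, hN2, hN3⟩ := sphere_net (d := d) hδ hδ1
  set μ : Measure (E d) := ProbabilityTheory.cond volume (Metric.ball (0 : E d) 1) with hμ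
  have : IsProbabilityMeasure μ :=
    ProbabilityTheory.cond_isProbabilityMeasure_of_finite
      (Metric.measure_ball_pos _ _ one_pos).ne' measure_ball_lt_top.ne
  have hcap : ∀ a ∈ N, MeasurableSet {x : E d | t + 2 * δ ≤ ⟪‖x‖⁻¹ • x, a⟫} ∧
      ENNReal.ofReal (h * b ^ (d - 1)) ≤ μ {x : E d | t + 2 * δ ≤ ⟪‖x‖⁻¹ • x, a⟫} := by
    intro a ha
    have hm : MeasurableSet {y : E d | t + 2 * δ ≤ ⟪y, a⟫} :=
      measurableSet_le measurable_const (by fun_prop)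
    have h1 := cap_bound hd (hN1 a ha) (t := t + 2 * δ) (h := h) (b := b) (by positivity) hh hb hb2
    rw [sigma, Measure.map_apply meas_dir hm] at h1
    exact ⟨meas_dir hm, h1⟩
  obtain ⟨Y, hY1, hY2⟩ := Pool.Agent.H815R2.Had.greedy_cover (S := N) (E := E d)
    (fun x a => t + 2 * δ ≤ ⟪‖x‖⁻¹ • x, (a : E d)⟫) (h * b ^ (d - 1)) hp0 hp1 (by
      intro A _
      obtain ⟨x, hx⟩ := exists_count μ A
        (fun a => {x : E d | t + 2 * δ ≤ ⟪‖x‖⁻¹ • x, (a : E d)⟫})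
        (fun a _ => (hcap a a.2).1) (h * b ^ (d - 1)) (fun a _ => (hcap a a.2).2)
      exact ⟨x, hx⟩) ((1 + 2 / δ) ^ d) (by
        rw [Fintype.card_coe]
        exact hN3) (one_le_pow₀ (by
          have : 0 < 2 / δ := by positivity
          linarith))
  refine ⟨Y.image (fun x => ‖x‖⁻¹ • x), ?_, ?_, ?_⟩
  · intro e he
    obtain ⟨x, -, rfl⟩ := Finset.mem_image.1 he
    rw [norm_smul, norm_inv, norm_norm]
    exact inv_mul_le_one
  · intro u hu
    obtain ⟨a, ha, hau⟩ := hN2 u hu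
    obtain ⟨x, hx, hxa⟩ := hY2 ⟨a, ha⟩
    refine ⟨_, Finset.mem_image_of_mem _ hx, ?_⟩
    have h1 : |⟪‖x‖⁻¹ • x, u - a⟫| ≤ 2 * δ := by
      refine (abs_real_inner_le_norm _ _).trans ?_
      have h2 : ‖‖x‖⁻¹ • x‖ ≤ 1 := by
        rw [norm_smul, norm_inv, norm_norm]
        exact inv_mul_le_one
      nlinarith [norm_nonneg (u - a), norm_nonneg (‖x‖⁻¹ • x)]
    have h3 : ⟪‖x‖⁻¹ • x, u⟫ = ⟪‖x‖⁻¹ • x, a⟫ + ⟪‖x‖⁻¹ • x, u - a⟫ := by
      rw [← inner_add_right]; congr 1; abel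
    have h4 := (abs_le.1 h1).1
    have h5 : t + 2 * δ ≤ ⟪‖x‖⁻¹ • x, a⟫ := hxa
    linarith
  · refine le_trans (by exact_mod_cast Finset.card_image_le) (hY1.trans ?_)
    rw [Real.log_pow]

/-- random directions meet all caps, with a large probability -/
theorem hit_prob (hd : 1 ≤ d) {t δ h b q : ℝ} (ht : 0 ≤ t) (hδ : 0 < δ) (hh : 0 < h) (hb : 0 < b)
    (hb2 : (t + 2 * δ + 2 * h) ^ 2 + b ^ 2 ≤ 1) (hq : 0 ≤ q) :
    ∃ N : Finset (E d), (N.card : ℝ) ≤ (1 + 2 / δ) ^ d ∧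
      (∀ {ι : Type} (S : Finset ι) (v : ι → E d), (∀ i ∈ S, ‖v i‖ ≤ 1) →
        (∀ a ∈ N, ∃ i ∈ S, t + 2 * δ ≤ ⟪v i, a⟫) → ∀ u : E d, ‖u‖ = 1 → ∃ i ∈ S, t ≤ ⟪v i, u⟫) ∧
      ∀ {Ω : Type} [MeasurableSpace Ω] (P : Measure Ω) [IsProbabilityMeasure P] {ι : Type}
        (U : ι → Ω → E d), (∀ i, Measurable (U i)) → iIndepFun U P →
        (∀ i, ENNReal.ofReal q • sigma d ≤ P.map (U i)) → ∀ S : Finset ι,
        P {ω | ∃ a ∈ N, ∀ i ∈ S, ⟪U i ω, a⟫ < t + 2 * δ} ≤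
          ENNReal.ofReal ((1 + 2 / δ) ^ d * Real.exp (-(q * (h * b ^ (d - 1)) * S.card))) := by
  classical
  have hsum : t + 2 * δ + 2 * h ≤ 1 := by nlinarith [sq_nonneg b]
  have hδ1 : δ < 1 := by linarith
  have hp0 : 0 < h * b ^ (d - 1) := by positivity
  obtain ⟨N, hN1, hN2, hN3⟩ := sphere_net (d := d) hδ hδ1
  refine ⟨N, hN3, ?_, ?_⟩
  · intro ι S v hv h1 u hu
    obtain ⟨a, ha, hau⟩ := hN2 u hu
    obtain ⟨i, hi, hia⟩ := h1 a ha
    refine ⟨i, hi, ?_⟩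
    have h2 : |⟪v i, u - a⟫| ≤ 2 * δ := by
      refine (abs_real_inner_le_norm _ _).trans ?_
      nlinarith [norm_nonneg (u - a), norm_nonneg (v i), hv i hi]
    have h3 : ⟪v i, u⟫ = ⟪v i, a⟫ + ⟪v i, u - a⟫ := by
      rw [← inner_add_right]; congr 1; abel
    have h4 := (abs_le.1 h2).1
    linarith
  · intro Ω _ P _ ι U hU hind hlaw S
    have hm : ∀ a : E d, MeasurableSet {y : E d | ⟪y, a⟫ < t + 2 * δ} := fun a =>
      measurableSet_lt (by fun_prop) measurable_const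
    have hone : ∀ a ∈ N, ∀ i, P (U i ⁻¹' {y : E d | ⟪y, a⟫ < t + 2 * δ}) ≤
        ENNReal.ofReal (Real.exp (-(q * (h * b ^ (d - 1))))) := by
      intro a ha i
      have hc : {y : E d | ⟪y, a⟫ < t + 2 * δ} = {y : E d | t + 2 * δ ≤ ⟪y, a⟫}ᶜ := by
        ext y; simp
      have hm' : MeasurableSet {y : E d | t + 2 * δ ≤ ⟪y, a⟫} :=
        measurableSet_le measurable_const (by fun_prop)
      have h1 := cap_bound hd (hN1 a ha) (t := t + 2 * δ) (h := h) (b := b) (by positivity) hh hb hb2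
      have h2 : ENNReal.ofReal (q * (h * b ^ (d - 1))) ≤ P.map (U i) {y : E d | t + 2 * δ ≤ ⟪y, a⟫} := by
        refine le_trans ?_ (hlaw i _)
        rw [Measure.smul_apply, smul_eq_mul, ENNReal.ofReal_mul hq]
        gcongr
      have : IsProbabilityMeasure (P.map (U i)) :=
        Measure.isProbabilityMeasure_map (hU i).aemeasurable
      have h3 : P (U i ⁻¹' {y : E d | ⟪y, a⟫ < t + 2 * δ}) =
          1 - P.map (U i) {y : E d | t + 2 * δ ≤ ⟪y, a⟫} := by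
        rw [← Measure.map_apply (hU i) (hm a), hc, prob_compl_eq_one_sub hm']
      rw [h3]
      calc 1 - P.map (U i) {y : E d | t + 2 * δ ≤ ⟪y, a⟫}
          ≤ 1 - ENNReal.ofReal (q * (h * b ^ (d - 1))) := tsub_le_tsub_left h2 _
        _ = ENNReal.ofReal (1 - q * (h * b ^ (d - 1))) := by
            rw [ENNReal.ofReal_sub _ (by positivity), ENNReal.ofReal_one]
        _ ≤ _ := by
            apply ENNReal.ofReal_le_ofReal
            have := Real.add_one_le_exp (-(q * (h * b ^ (d - 1))))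
            linarith
    have hsub : {ω | ∃ a ∈ N, ∀ i ∈ S, ⟪U i ω, a⟫ < t + 2 * δ} =
        ⋃ a ∈ N, ⋂ i ∈ S, U i ⁻¹' {y : E d | ⟪y, a⟫ < t + 2 * δ} := by
      ext ω; simp
    rw [hsub]
    calc P (⋃ a ∈ N, ⋂ i ∈ S, U i ⁻¹' {y : E d | ⟪y, a⟫ < t + 2 * δ})
        ≤ ∑ a ∈ N, P (⋂ i ∈ S, U i ⁻¹' {y : E d | ⟪y, a⟫ < t + 2 * δ}) :=
          measure_biUnion_finset_le _ _
      _ ≤ ∑ a ∈ N, ENNReal.ofReal (Real.exp (-(q * (h * b ^ (d - 1)) * S.card))) := by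
          refine Finset.sum_le_sum fun a ha => ?_
          rw [hind.measure_inter_preimage_eq_mul S (fun i _ => hm a)]
          calc ∏ i ∈ S, P (U i ⁻¹' {y : E d | ⟪y, a⟫ < t + 2 * δ})
              ≤ ∏ _i ∈ S, ENNReal.ofReal (Real.exp (-(q * (h * b ^ (d - 1))))) :=
                Finset.prod_le_prod' fun i _ => hone a ha i
            _ = _ := by
                rw [Finset.prod_const, ← ENNReal.ofReal_pow (Real.exp_pos _).le, ← Real.exp_nat_mul]
                congr 2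
                ring
      _ = ENNReal.ofReal (N.card * Real.exp (-(q * (h * b ^ (d - 1)) * S.card))) := by
          rw [Finset.sum_const, nsmul_eq_mul, ENNReal.ofReal_mul (by positivity),
            ENNReal.ofReal_natCast]
      _ ≤ _ := by
          apply ENNReal.ofReal_le_ofReal
          gcongr

end Pool.Agent.J4H22.RP
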