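import Mathlib
import Pool.Agent.J4H22.RP.Hit
import Pool.Agent.TH84.HC.Cover

/-!
# Covering the convex hull of a finite set, the longest vectors of which meet all caps
-/

set_option autoImplicit false

open MeasureTheory Set
open scoped RealInnerProductSpace ENNReal

namespace Pool.Agent.J4H22.RP

open Pool.Agent.PZ871 (E)
open Pool.Agent.TH84.HC

variable {d : ℕ}

/-- the convex hull of long vectors which meet all caps contains a ball -/
theorem ball_sub (hd : 1 ≤ d) {ι : Type} (S : Finset ι) (v : ι → E d) (R : ι → ℝ) {t r : ℝ}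
    (ht : 0 < t) (hr : 0 < r) (hR : ∀ i ∈ S, r ≤ R i)
    (hS : ∀ u : E d, ‖u‖ = 1 → ∃ i ∈ S, t ≤ ⟪v i, u⟫)
    {F : Set (E d)} (hF : F.Finite) (hsub : ∀ i ∈ S, R i • v i ∈ F) :
    Metric.ball (0 : E d) (t * r) ⊆ convexHull ℝ F := by
  intro x hx
  by_contra hcon
  obtain ⟨f, s, h1, h2⟩ := geometric_hahn_banach_closed_point (convex_convexHull ℝ F)
    (hF.isClosed_convexHull ℝ) hcon
  set w : E d := (InnerProductSpace.toDual ℝ (E d)).symm f with hw
  have hfw : ∀ y, f y = ⟪w, y⟫ := fun y => by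
    rw [hw, InnerProductSpace.toDual_symm_apply]
  have hx1 : ‖x‖ < t * r := by simpa using hx
  have hw0 : w ≠ 0 := by
    intro h0
    obtain ⟨i, hi, -⟩ := hS (EuclideanSpace.single ⟨0, hd⟩ 1) (by simp)
    have h3 := h1 _ (subset_convexHull ℝ F (hsub i hi))
    rw [hfw, h0, inner_zero_left] at h3 h2
    linarith
  have hwn : 0 < ‖w‖ := norm_pos_iff.2 hw0
  obtain ⟨i, hi, hiw⟩ := hS (‖w‖⁻¹ • w) (by
    rw [norm_smul, norm_inv, norm_norm, inv_mul_cancel₀ hwn.ne'])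
  have h3 := h1 _ (subset_convexHull ℝ F (hsub i hi))
  rw [hfw] at h3 h2
  rw [inner_smul_right] at hiw
  have h4 : t * ‖w‖ ≤ ⟪v i, w⟫ := by
    rw [inv_mul_eq_div, le_div_iff₀ hwn] at hiw
    exact hiw
  have h5 : ⟪w, R i • v i⟫ = R i * ⟪v i, w⟫ := by
    rw [inner_smul_right, real_inner_comm]
  have h6 : ⟪w, x⟫ ≤ ‖w‖ * ‖x‖ := real_inner_le_norm _ _
  have h7 : ‖w‖ * ‖x‖ < ‖w‖ * (t * r) := by gcongr
  have h8 : r * (t * ‖w‖) ≤ R i * ⟪v i, w⟫ :=
    mul_le_mul (hR i hi) h4 (by positivity) (hr.le.trans (hR i hi))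
  rw [h5] at h3
  nlinarith

/-- illumination of a short vector by the directions `-e` -/
theorem illum_short {K : Set (E d)} {t t₂ r : ℝ} (ht : 0 < t) (ht₂ : 0 < t₂) (h1 : 1 < t ^ 2 + t₂ ^ 2)
    (hr : 0 < r) (hball : Metric.ball (0 : E d) (t * r) ⊆ K) {x e : E d} (hx0 : x ≠ 0)
    (hx : ‖x‖ ≤ r) (he : ‖e‖ ≤ 1) (hxe : t₂ * ‖x‖ ≤ ⟪e, x⟫) :
    ∃ s : ℝ, 0 < s ∧ x + s • (-e) ∈ interior K := by
  have hxn : 0 < ‖x‖ := norm_pos_iff.2 hx0
  have hpos : 0 < ⟪e, x⟫ := lt_of_lt_of_le (by positivity) hxe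
  refine ⟨⟪e, x⟫, hpos, interior_maximal hball Metric.isOpen_ball ?_⟩
  rw [mem_ball_zero_iff]
  have h2 : ‖x + ⟪e, x⟫ • (-e)‖ ^ 2 ≤ ‖x‖ ^ 2 - ⟪e, x⟫ ^ 2 := by
    rw [norm_add_sq_real, norm_smul, inner_smul_right, inner_neg_right, norm_neg,
      real_inner_comm e x, mul_pow, Real.norm_eq_abs, sq_abs]
    have h3 : ‖e‖ ^ 2 ≤ 1 := pow_le_one₀ (norm_nonneg _) he
    nlinarith [sq_nonneg ⟪e, x⟫]
  have h3 : (t₂ * ‖x‖) ^ 2 ≤ ⟪e, x⟫ ^ 2 := pow_le_pow_left₀ (by positivity) hxe 2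
  have h4 : ‖x + ⟪e, x⟫ • (-e)‖ ^ 2 ≤ (1 - t₂ ^ 2) * ‖x‖ ^ 2 := by nlinarith
  have h5 : ‖x + ⟪e, x⟫ • (-e)‖ ^ 2 < (t * r) ^ 2 := by
    have h0 : 0 < (t * r) ^ 2 := by positivity
    rcases le_or_gt (1 - t₂ ^ 2) 0 with h6 | h6
    · have h7 : ‖x + ⟪e, x⟫ • (-e)‖ ^ 2 ≤ 0 :=
        h4.trans (mul_nonpos_of_nonpos_of_nonneg h6 (sq_nonneg _))
      linarith
    · have h7 : ‖x‖ ^ 2 ≤ r ^ 2 := pow_le_pow_left₀ hxn.le hx 2
      have h8 : 0 < r ^ 2 := by positivity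
      nlinarith
  exact lt_of_pow_lt_pow_left₀ 2 (by positivity) h5

/-- **The deterministic covering theorem.** `K` is the convex hull of finitely many finite sets `W i`
of at most `k` vectors, those of `W i` are not longer than `R i`, and `R i • v i` belongs to `W i`.
If the `v i`, `i ∈ S`, meet all caps of height `t`, where the `R i`, `i ∈ S`, are the largest ones,
and the vectors of `D` meet all caps of height `t₂`, `1 < t ^ 2 + t₂ ^ 2`, then `K` is covered by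
`k |S| + |D|` translates of its interior. -/
theorem cover_hull (hd : 1 ≤ d) {ι : Type} [Fintype ι] (S : Finset ι) (v : ι → E d) (R : ι → ℝ)
    (W : ι → Finset (E d)) (k : ℕ) {t t₂ : ℝ} (ht : 0 < t) (ht₂ : 0 < t₂) (h1 : 1 < t ^ 2 + t₂ ^ 2)
    (hR0 : ∀ i, 0 < R i) (hS : ∀ u : E d, ‖u‖ = 1 → ∃ i ∈ S, t ≤ ⟪v i, u⟫)
    (htop : ∀ i ∈ S, ∀ j, j ∉ S → R j ≤ R i)
    (D : Finset (E d)) (hD1 : ∀ e ∈ D, ‖e‖ ≤ 1) (hD2 : ∀ u : E d, ‖u‖ = 1 → ∃ e ∈ D, t₂ ≤ ⟪e, u⟫)
    (hW : ∀ i, (W i).card ≤ k) (hWR : ∀ i, ∀ w ∈ W i, ‖w‖ ≤ R i) (hv : ∀ i, R i • v i ∈ W i) :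
    CoveredBy (k * S.card + D.card) (convexHull ℝ (⋃ i, (W i : Set (E d)))) := by
  classical
  set F : Set (E d) := ⋃ i, (W i : Set (E d)) with hFdef
  have hF : F.Finite := Set.finite_iUnion fun i => (W i).finite_toSet
  have hSne : S.Nonempty := by
    obtain ⟨i, hi, -⟩ := hS (EuclideanSpace.single ⟨0, hd⟩ 1) (by simp)
    exact ⟨i, hi⟩
  obtain ⟨i₀, hi₀, hmin⟩ := S.exists_min_image R hSne
  have hball := ball_sub hd S v R ht (hR0 i₀) hmin hS hF
    (fun i _ => Set.mem_iUnion.2 ⟨i, hv i⟩)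
  have hK : Convex ℝ (convexHull ℝ F) := convex_convexHull ℝ F
  have hc : IsCompact (convexHull ℝ F) := hF.isCompact_convexHull ℝ
  have h0 : (0 : E d) ∈ interior (convexHull ℝ F) :=
    interior_maximal hball Metric.isOpen_ball (Metric.mem_ball_self (by have := hR0 i₀; positivity))
  obtain ⟨e₀, he₀, -⟩ := hD2 (EuclideanSpace.single ⟨0, hd⟩ 1) (by simp)
  set U : Finset (E d) := (S.biUnion W).image (fun x => 0 - x) ∪ D.image (fun e => -e) with hU
  have hcard : (U.card : ℝ) ≤ k * S.card + D.card := by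
    have h2 : U.card ≤ S.card * k + D.card := by
      refine (Finset.card_union_le _ _).trans (add_le_add ?_ Finset.card_image_le)
      exact Finset.card_image_le.trans (Finset.card_biUnion_le_card_mul _ _ _ fun i _ => hW i)
    calc (U.card : ℝ) ≤ ((S.card * k + D.card : ℕ) : ℝ) := by exact_mod_cast h2
      _ = _ := by push_cast; ring
  obtain ⟨T, hT1, hT2⟩ := cover_of_illum hK hc U
    ⟨-e₀, Finset.mem_union_right _ (Finset.mem_image_of_mem _ he₀)⟩ (by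
      intro x hx
      obtain ⟨y, hy, hdom⟩ := extreme_dom hK hc ⟨0, h0⟩ hx
      have hyF : y ∈ F := extremePoints_convexHull_subset hy
      obtain ⟨j, hj⟩ := Set.mem_iUnion.1 hyF
      have hjW : y ∈ W j := hj
      by_cases hjS : j ∈ S
      · refine ⟨0 - y, Finset.mem_union_left _ (Finset.mem_image_of_mem _
          (Finset.mem_biUnion.2 ⟨j, hjS, hjW⟩)), ?_⟩
        exact hdom _ (toward_int hK h0 (subset_convexHull ℝ F hyF))
      · by_cases hy0 : y = 0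
        · exact ⟨-e₀, Finset.mem_union_right _ (Finset.mem_image_of_mem _ he₀),
            hdom _ (small_int _ (by rw [hy0]; exact h0))⟩
        · have hyn : 0 < ‖y‖ := norm_pos_iff.2 hy0
          obtain ⟨e, he, hey⟩ := hD2 (‖y‖⁻¹ • y) (by
            rw [norm_smul, norm_inv, norm_norm, inv_mul_cancel₀ hyn.ne'])
          rw [inner_smul_right, inv_mul_eq_div, le_div_iff₀ hyn] at hey
          exact ⟨-e, Finset.mem_union_right _ (Finset.mem_image_of_mem _ he),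
            hdom _ (illum_short ht ht₂ h1 (hR0 i₀) hball hy0
              ((hWR j y hjW).trans (htop i₀ hi₀ j hjS)) (hD1 e he) hey)⟩)
  exact ⟨T, hT1.trans hcard, hT2⟩

/-- the trivial covering of a polytope with few vertices -/
theorem cover_few {ι : Type} [Fintype ι] (W : ι → Finset (E d)) (k : ℕ) (hW : ∀ i, (W i).card ≤ k)
    (hi : (interior (convexHull ℝ (⋃ i, (W i : Set (E d))))).Nonempty) :
    CoveredBy (k * Fintype.card ι) (convexHull ℝ (⋃ i, (W i : Set (E d)))) := by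
  classical
  set F : Set (E d) := ⋃ i, (W i : Set (E d)) with hFdef
  have hF : F.Finite := Set.finite_iUnion fun i => (W i).finite_toSet
  have hK : Convex ℝ (convexHull ℝ F) := convex_convexHull ℝ F
  have hc : IsCompact (convexHull ℝ F) := hF.isCompact_convexHull ℝ
  obtain ⟨a, ha⟩ := hi
  have hne : (convexHull ℝ F).Nonempty := ⟨a, interior_subset ha⟩
  have hFne : F.Nonempty := convexHull_nonempty_iff.1 hne
  set U : Finset (E d) := (Finset.univ.biUnion W).image (fun x => a - x) with hU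
  obtain ⟨x₀, hx₀⟩ := hFne
  obtain ⟨j₀, hj₀⟩ := Set.mem_iUnion.1 hx₀
  have hcard : (U.card : ℝ) ≤ k * Fintype.card ι := by
    have h2 : U.card ≤ Fintype.card ι * k :=
      Finset.card_image_le.trans (Finset.card_biUnion_le_card_mul _ _ _ fun i _ => hW i)
    calc (U.card : ℝ) ≤ ((Fintype.card ι * k : ℕ) : ℝ) := by exact_mod_cast h2
      _ = _ := by push_cast; ring
  obtain ⟨T, hT1, hT2⟩ := cover_of_illum hK hc U
    ⟨a - x₀, Finset.mem_image_of_mem _ (Finset.mem_biUnion.2 ⟨j₀, Finset.mem_univ _, hj₀⟩)⟩ (by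
      intro x hx
      obtain ⟨y, hy, hdom⟩ := extreme_dom hK hc ⟨a, ha⟩ hx
      have hyF : y ∈ F := extremePoints_convexHull_subset hy
      obtain ⟨j, hj⟩ := Set.mem_iUnion.1 hyF
      exact ⟨a - y, Finset.mem_image_of_mem _ (Finset.mem_biUnion.2 ⟨j, Finset.mem_univ _, hj⟩),
        hdom _ (toward_int hK ha (subset_convexHull ℝ F hyF))⟩)
  exact ⟨T, hT1.trans hcard, hT2⟩

end Pool.Agent.J4H22.RP
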