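import Mathlib
import Pool.Agent.J4H22.RP.Geo

/-!
# The longest vectors are chosen by lengths which are independent of the directions
-/

set_option autoImplicit false

open MeasureTheory Set ProbabilityTheory
open scoped RealInnerProductSpace ENNReal

namespace Pool.Agent.J4H22.RP

open Pool.Agent.PZ871 (E)
open Pool.Agent.TH84.HC

variable {d : ℕ}

/-- selection by an independent variable -/
theorem select {Ω X Y : Type*} [MeasurableSpace Ω] [MeasurableSpace X] [MeasurableSpace Y]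
    (P : Measure Ω) (V : Ω → X) (R : Ω → Y) (hR : Measurable R)
    (hind : IndepFun V R P) {ι : Type*} [DecidableEq ι]
    (G : ι → Set Y) (B : ι → Set X) (hG : ∀ i, MeasurableSet (G i)) (hB : ∀ i, MeasurableSet (B i))
    (η : ℝ≥0∞) (s : Finset ι) (hη : ∀ i ∈ s, P (V ⁻¹' B i) ≤ η) :
    P {ω | (∃ i ∈ s, R ω ∈ G i) ∧ ∀ i ∈ s, R ω ∈ G i → V ω ∈ B i} ≤
      η * P (R ⁻¹' ⋃ i ∈ s, G i) := by
  induction s using Finset.induction_on with
  | empty => simp
  | insert i s his ih =>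
    have ih' := ih fun j hj => hη j (Finset.mem_insert_of_mem hj)
    set Y' : Set Y := G i \ ⋃ j ∈ s, G j with hY'
    have hY'm : MeasurableSet Y' := (hG i).diff (s.measurableSet_biUnion fun j _ => hG j)
    have hsub : {ω | (∃ j ∈ insert i s, R ω ∈ G j) ∧ ∀ j ∈ insert i s, R ω ∈ G j → V ω ∈ B j} ⊆
        {ω | (∃ j ∈ s, R ω ∈ G j) ∧ ∀ j ∈ s, R ω ∈ G j → V ω ∈ B j} ∪
          (V ⁻¹' B i ∩ R ⁻¹' Y') := by
      rintro ω ⟨h1, h2⟩
      by_cases h3 : ∃ j ∈ s, R ω ∈ G j
      · exact Or.inl ⟨h3, fun j hj => h2 j (Finset.mem_insert_of_mem hj)⟩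
      · right
        obtain ⟨j, hj, hjG⟩ := h1
        rcases Finset.mem_insert.1 hj with rfl | hj'
        · refine ⟨h2 _ (Finset.mem_insert_self _ _) hjG, hjG, ?_⟩
          simp only [Set.mem_iUnion, not_exists]
          intro j' hj' hG'
          exact h3 ⟨j', hj', hG'⟩
        · exact absurd ⟨j, hj', hjG⟩ h3
    have hun : (⋃ j ∈ insert i s, G j) = (⋃ j ∈ s, G j) ∪ Y' := by
      rw [Finset.set_biUnion_insert, hY', Set.union_sdiff_self, Set.union_comm]
    calc P {ω | (∃ j ∈ insert i s, R ω ∈ G j) ∧ ∀ j ∈ insert i s, R ω ∈ G j → V ω ∈ B j}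
        ≤ _ := measure_mono hsub
      _ ≤ P {ω | (∃ j ∈ s, R ω ∈ G j) ∧ ∀ j ∈ s, R ω ∈ G j → V ω ∈ B j} +
          P (V ⁻¹' B i ∩ R ⁻¹' Y') := measure_union_le _ _
      _ ≤ η * P (R ⁻¹' ⋃ j ∈ s, G j) + η * P (R ⁻¹' Y') := by
          refine add_le_add ih' ?_
          rw [hind.measure_inter_preimage_eq_mul _ _ (hB i) hY'm]
          gcongr
          exact hη i (Finset.mem_insert_self _ _)
      _ = η * P (R ⁻¹' ⋃ j ∈ insert i s, G j) := by
          rw [← mul_add, hun, Set.preimage_union, measure_union]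
          · refine Disjoint.preimage R ?_
            exact Set.disjoint_sdiff_right
          · exact hR hY'm

/-- the `m` largest numbers -/
theorem exists_top {N : ℕ} (r : Fin N → ℝ) {m : ℕ} (hm : m ≤ N) :
    ∃ S ∈ Finset.powersetCard m (Finset.univ : Finset (Fin N)), ∀ i ∈ S, ∀ j, j ∉ S → r j ≤ r i := by
  classical
  have hne : (Finset.powersetCard m (Finset.univ : Finset (Fin N))).Nonempty := by
    rw [Finset.powersetCard_nonempty, Finset.card_univ, Fintype.card_fin]
    exact hm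
  obtain ⟨S, hS, hmax⟩ := Finset.exists_max_image _ (fun S : Finset (Fin N) => ∑ i ∈ S, r i) hne
  refine ⟨S, hS, fun i hi j hj => ?_⟩
  by_contra hcon
  push Not at hcon
  have hcard := (Finset.mem_powersetCard.1 hS).2
  have hj' : j ∉ S.erase i := fun h => hj (Finset.mem_of_mem_erase h)
  have h1 := hmax (insert j (S.erase i)) (by
    rw [Finset.mem_powersetCard]
    refine ⟨Finset.subset_univ _, ?_⟩
    rw [Finset.card_insert_of_notMem hj', Finset.card_erase_of_mem hi, hcard]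
    have : 0 < m := by rw [← hcard]; exact Finset.card_pos.2 ⟨i, hi⟩
    omega)
  rw [Finset.sum_insert hj', ← Finset.add_sum_erase S r hi] at h1
  linarith

/-- `v i` are directions and `r i` lengths. Whatever sets `W i` of at most `k` vectors not longer
than `r i` are chosen, such that `r i • v i` is in `W i`: if the convex hull of the union of the `W i`
has interior points then it is covered by at most `C` translates of its interior. -/
def HullsCovered {N : ℕ} (k : ℕ) (C : ℝ) (v : Fin N → E d) (r : Fin N → ℝ) : Prop :=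
  ∀ W : Fin N → Finset (E d), (∀ i, (W i).card ≤ k) → (∀ i, r i • v i ∈ W i) →
    (∀ i, ∀ w ∈ W i, ‖w‖ ≤ r i) →
    (interior (convexHull ℝ (⋃ i, (W i : Set (E d))))).Nonempty →
    CoveredBy C (convexHull ℝ (⋃ i, (W i : Set (E d))))

theorem good_prob (hd : 1 ≤ d) {δ h b₁ b₂ t₁ t₂ q C : ℝ} (ht₁ : 0 < t₁) (ht₂ : 0 < t₂)
    (ht : 1 < t₁ ^ 2 + t₂ ^ 2) (hδ : 0 < δ) (hh : 0 < h) (hb₁ : 0 < b₁) (hb₂ : 0 < b₂)
    (h1 : (t₁ + 2 * δ + 2 * h) ^ 2 + b₁ ^ 2 ≤ 1) (h2 : (t₂ + 2 * δ + 2 * h) ^ 2 + b₂ ^ 2 ≤ 1)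
    (hq : 0 ≤ q) (m k : ℕ)
    (hC : k * m + (d * Real.log (1 + 2 / δ) / (h * b₂ ^ (d - 1)) + 1) ≤ C)
    {Ω : Type} [MeasurableSpace Ω] (P : Measure Ω) [IsProbabilityMeasure P] {N : ℕ}
    (U : Fin N → Ω → E d) (R : Ω → Fin N → ℝ) (hU : ∀ i, Measurable (U i)) (hR : Measurable R)
    (hU1 : ∀ i ω, ‖U i ω‖ = 1) (hR0 : ∀ ω i, 0 < R ω i) (hind : iIndepFun U P)
    (hUR : IndepFun (fun ω i => U i ω) R P)
    (hlaw : ∀ i, ENNReal.ofReal q • sigma d ≤ P.map (U i)) :
    P {ω | ¬ HullsCovered k C (fun i => U i ω) (R ω)} ≤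
      ENNReal.ofReal ((1 + 2 / δ) ^ d * Real.exp (-(q * (h * b₁ ^ (d - 1)) * m))) := by
  classical
  obtain ⟨D, hD1, hD2, hD3⟩ := hit_det hd ht₂.le hδ hh hb₂ h2
  have hpos : 0 ≤ d * Real.log (1 + 2 / δ) / (h * b₂ ^ (d - 1)) + 1 := by
    have : 0 ≤ Real.log (1 + 2 / δ) := Real.log_nonneg (by
      have : 0 < 2 / δ := by positivity
      linarith)
    positivity
  rcases lt_or_ge N m with hNm | hNm
  · -- few points
    have hemp : {ω | ¬ HullsCovered k C (fun i => U i ω) (R ω)} = ∅ := by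
      ext ω
      simp only [Set.mem_ofPred_eq, Set.mem_empty_iff_false, iff_false, not_not]
      intro W hW _ _ hi
      obtain ⟨T, hT1, hT2⟩ := cover_few W k hW hi
      refine ⟨T, hT1.trans ?_, hT2⟩
      rw [Fintype.card_fin]
      have h3 : (k : ℝ) * N ≤ k * m := by gcongr
      linarith
    rw [hemp, measure_empty]
    exact zero_le
  · obtain ⟨Nt, -, hN1, hN2⟩ := hit_prob (q := q) hd ht₁.le hδ hh hb₁ h1 hq
    set V : Ω → (Fin N → E d) := fun ω i => U i ω with hV
    set G : Finset (Fin N) → Set (Fin N → ℝ) := fun S => {r | ∀ i ∈ S, ∀ j, j ∉ S → r j ≤ r i} with hG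
    set B : Finset (Fin N) → Set (Fin N → E d) := fun S =>
      {v | ∃ a ∈ Nt, ∀ i ∈ S, ⟪v i, a⟫ < t₁ + 2 * δ} with hB
    have hGm : ∀ S, MeasurableSet (G S) := by
      intro S
      have : G S = ⋂ i ∈ S, ⋂ j : {j // j ∉ S}, {r : Fin N → ℝ | r j ≤ r i} := by
        ext r; simp [hG]
      rw [this]
      refine S.measurableSet_biInter fun i _ => MeasurableSet.iInter fun j => ?_
      exact measurableSet_le (measurable_pi_apply _) (measurable_pi_apply _)
    have hBm : ∀ S, MeasurableSet (B S) := by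
      intro S
      have : B S = ⋃ a ∈ Nt, ⋂ i ∈ S, {v : Fin N → E d | ⟪v i, a⟫ < t₁ + 2 * δ} := by
        ext v; simp [hB]
      rw [this]
      refine Nt.measurableSet_biUnion fun a _ => S.measurableSet_biInter fun i _ => ?_
      exact measurableSet_lt ((measurable_pi_apply i).inner measurable_const) measurable_const
    have hsel := select P V R hR hUR G B hGm hBm
      (ENNReal.ofReal ((1 + 2 / δ) ^ d * Real.exp (-(q * (h * b₁ ^ (d - 1)) * m))))
      (Finset.powersetCard m Finset.univ) (by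
        intro S hS
        have h3 := hN2 P U hU hind hlaw S
        rw [(Finset.mem_powersetCard.1 hS).2] at h3
        exact h3)
    refine (measure_mono ?_).trans (hsel.trans ?_)
    · intro ω hω
      obtain ⟨S₀, hS₀, hS₀'⟩ := exists_top (R ω) hNm
      refine ⟨⟨S₀, hS₀, hS₀'⟩, ?_⟩
      intro S hS hSG
      by_contra hcon
      apply hω
      intro W hW hv hWR hi
      have h4 : ∀ u : E d, ‖u‖ = 1 → ∃ i ∈ S, t₁ ≤ ⟪U i ω, u⟫ := by
        refine hN1 S (fun i => U i ω) (fun i _ => (hU1 i ω).le) ?_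
        intro a ha
        by_contra hc
        push Not at hc
        exact hcon ⟨a, ha, hc⟩
      obtain ⟨T, hT1, hT2⟩ := cover_hull hd S (fun i => U i ω) (R ω) W k ht₁ ht₂ ht (hR0 ω) h4 hSG D
        hD1 hD2 hW hWR hv
      refine ⟨T, hT1.trans ?_, hT2⟩
      rw [(Finset.mem_powersetCard.1 hS).2]
      linarith
    · calc _ ≤ _ * (1 : ℝ≥0∞) := by
            gcongr
            exact prob_le_one
        _ = _ := mul_one _

end Pool.Agent.J4H22.RP
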