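import Mathlib
import Pool.Agent.J4H22.RP.Prob

/-!
# Random polytopes: choice of the parameters
-/

set_option autoImplicit false

open MeasureTheory Set ProbabilityTheory
open scoped RealInnerProductSpace ENNReal

namespace Pool.Agent.J4H22.RP

open Pool.Agent.PZ871 (E)
open Pool.Agent.TH84.HC

variable {d : ℕ}

/-- the base of the exponential bound -/
noncomputable def base (l : ℝ) : ℝ := Real.sqrt (1 + 1 / l ^ 2)

theorem base_pos (l : ℝ) : 0 < base l := Real.sqrt_pos.2 (by positivity)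

/-- the two heights `α = 1 / base l` and `β = α / l` -/
theorem heights {l : ℝ} (hl : 1 / 2 ≤ l) (hl1 : l ≤ 1) :
    let α := 1 / base l
    let β := α / l
    α ^ 2 + β ^ 2 = 1 ∧ 0 < α ∧ 0 < β ∧ 1 / 5 ≤ α ^ 2 ∧ 1 / 2 ≤ β ^ 2 ∧ α ≤ 3 / 4 ∧ β ≤ 1 ∧
      l * β = α := by
  intro α β
  have hl0 : 0 < l := by linarith
  have hb := base_pos l
  have hb2 : base l ^ 2 = 1 + 1 / l ^ 2 := Real.sq_sqrt (by positivity)
  have hα : α ^ 2 = l ^ 2 / (l ^ 2 + 1) := by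
    change (1 / base l) ^ 2 = _
    rw [div_pow, hb2]
    field_simp
  have hβ : β ^ 2 = 1 / (l ^ 2 + 1) := by
    change (α / l) ^ 2 = _
    rw [div_pow, hα]
    field_simp
  have hα0 : 0 < α := by positivity
  have hβ0 : 0 < β := by positivity
  have h1 : α ^ 2 + β ^ 2 = 1 := by
    rw [hα, hβ]
    field_simp
  have hl2 : 1 / 4 ≤ l ^ 2 := by nlinarith
  have hl3 : l ^ 2 ≤ 1 := by nlinarith
  have h5 : 1 / 5 ≤ α ^ 2 := by
    rw [hα, le_div_iff₀ (by positivity)]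
    linarith
  have h6 : 1 / 2 ≤ β ^ 2 := by
    rw [hβ, le_div_iff₀ (by positivity)]
    linarith
  refine ⟨h1, hα0, hβ0, h5, h6, ?_, ?_, ?_⟩
  · nlinarith
  · nlinarith
  · change l * (α / l) = α
    field_simp

/-- arithmetic for the number of random vectors -/
theorem arith₁ {D Λ L ℓ q : ℝ} (hD : 1 ≤ D) (hΛ : 1 ≤ Λ) (hℓ : 0 ≤ ℓ) (hL : L ≤ 5 * (1 + ℓ))
    (hL0 : 0 ≤ L) (hq : 68 / 5000 / D / Λ ≤ q) :
    (D * L + D) / q + 1 ≤ 443 * (D ^ 2 * (1 + ℓ) * Λ) := by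
  have hD0 : 0 < D := by linarith
  have hΛ0 : 0 < Λ := by linarith
  have h1 : 1 ≤ D ^ 2 * (1 + ℓ) * Λ := by
    have h2 : 1 ≤ D ^ 2 := one_le_pow₀ hD
    have h3 : 1 ≤ D ^ 2 * (1 + ℓ) := one_le_mul_of_one_le_of_one_le h2 (by linarith)
    exact one_le_mul_of_one_le_of_one_le h3 hΛ
  have hq' : 0 < 68 / 5000 / D / Λ := by positivity
  have e1 : (D * L + D) / q ≤ (D * L + D) / (68 / 5000 / D / Λ) :=
    div_le_div_of_nonneg_left (by positivity) hq' hq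
  have e2 : (D * L + D) / (68 / 5000 / D / Λ) = 5000 / 68 * (D ^ 2 * (L + 1) * Λ) := by
    field_simp
  have e3 : D ^ 2 * (L + 1) * Λ ≤ 6 * (D ^ 2 * (1 + ℓ) * Λ) := by
    have h2 : L + 1 ≤ 6 * (1 + ℓ) := by linarith
    calc D ^ 2 * (L + 1) * Λ ≤ D ^ 2 * (6 * (1 + ℓ)) * Λ :=
          mul_le_mul_of_nonneg_right (mul_le_mul_of_nonneg_left h2 (by positivity)) hΛ0.le
      _ = _ := by ring
  rw [e2] at e1
  linarith

/-- arithmetic for the number of fixed vectors -/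
theorem arith₂ {D Λ L ℓ q : ℝ} (hD : 1 ≤ D) (hΛ : 1 ≤ Λ) (hℓ : 0 ≤ ℓ) (hL : L ≤ 5 * (1 + ℓ))
    (hL0 : 0 ≤ L) (hq : 16 / 5000 / D / Λ ≤ q) :
    D * L / q + 1 ≤ 1564 * (D ^ 2 * (1 + ℓ) * Λ) := by
  have hD0 : 0 < D := by linarith
  have hΛ0 : 0 < Λ := by linarith
  have h1 : 1 ≤ D ^ 2 * (1 + ℓ) * Λ := by
    have h2 : 1 ≤ D ^ 2 := one_le_pow₀ hD
    have h3 : 1 ≤ D ^ 2 * (1 + ℓ) := one_le_mul_of_one_le_of_one_le h2 (by linarith)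
    exact one_le_mul_of_one_le_of_one_le h3 hΛ
  have hq' : 0 < 16 / 5000 / D / Λ := by positivity
  have e1 : D * L / q ≤ D * L / (16 / 5000 / D / Λ) :=
    div_le_div_of_nonneg_left (by positivity) hq' hq
  have e2 : D * L / (16 / 5000 / D / Λ) = 5000 / 16 * (D ^ 2 * L * Λ) := by
    field_simp
  have e3 : D ^ 2 * L * Λ ≤ 5 * (D ^ 2 * (1 + ℓ) * Λ) := by
    calc D ^ 2 * L * Λ ≤ D ^ 2 * (5 * (1 + ℓ)) * Λ :=
          mul_le_mul_of_nonneg_right (mul_le_mul_of_nonneg_left hL (by positivity)) hΛ0.le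
      _ = _ := by ring
  rw [e2] at e1
  linarith

/-- the parameters -/
theorem params {D ε α β : ℝ} (hε0 : 0 < ε) (hε1 : ε ≤ 1 / 50)
    (h1 : α ^ 2 + β ^ 2 = 1) (hα2 : 1 / 5 ≤ α ^ 2) (hβ2 : 1 / 2 ≤ β ^ 2) (hα3 : α ≤ 3 / 4)
    (hβ1 : β ≤ 1) :
    (α + ε + 2 * ε + 2 * ε) ^ 2 + (β * (1 - 16 * ε)) ^ 2 ≤ 1 ∧
      (β + 2 * ε + 2 * ε) ^ 2 + (α * (1 - 42 * ε)) ^ 2 ≤ 1 := by
  constructor
  · have e1 : (α + ε + 2 * ε + 2 * ε) ^ 2 = α ^ 2 + (10 * α + 25 * ε) * ε := by ring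
    have e2 : (β * (1 - 16 * ε)) ^ 2 = β ^ 2 - β ^ 2 * (16 * ε) * (2 - 16 * ε) := by ring
    rw [e1, e2]
    have h3 : 1 / 2 * (16 * ε) * 1 ≤ β ^ 2 * (16 * ε) * (2 - 16 * ε) := by
      refine mul_le_mul ?_ (by linarith) (by norm_num) (by positivity)
      exact mul_le_mul_of_nonneg_right hβ2 (by positivity)
    have h4 : (10 * α + 25 * ε) * ε ≤ 8 * ε :=
      mul_le_mul_of_nonneg_right (by linarith) hε0.le
    linarith
  · have e1 : (β + 2 * ε + 2 * ε) ^ 2 = β ^ 2 + (8 * β + 16 * ε) * ε := by ring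
    have e2 : (α * (1 - 42 * ε)) ^ 2 = α ^ 2 - α ^ 2 * (42 * ε) * (2 - 42 * ε) := by ring
    rw [e1, e2]
    have h3 : 1 / 5 * (42 * ε) * (116 / 100) ≤ α ^ 2 * (42 * ε) * (2 - 42 * ε) := by
      refine mul_le_mul ?_ (by linarith) (by norm_num) (by positivity)
      exact mul_le_mul_of_nonneg_right hα2 (by positivity)
    have h4 : (8 * β + 16 * ε) * ε ≤ (8 + 32 / 100) * ε :=
      mul_le_mul_of_nonneg_right (by linarith) hε0.le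
    linarith

/-- Bernoulli -/
theorem pow_lower (hd : 1 ≤ d) {ε b x : ℝ} (hεd : ε * d = 1 / 50) (hb : 0 < b) (hb1 : b ≤ 1)
    (hε : 0 < ε) (hx : 0 ≤ x) (hxe : x * ε < 1) :
    b ^ d * (1 - x / 50) ≤ (b * (1 - x * ε)) ^ (d - 1) := by
  have h0 : 0 < b * (1 - x * ε) := mul_pos hb (by linarith)
  have hxε : 0 ≤ x * ε := by positivity
  have h1 : b * (1 - x * ε) ≤ 1 := mul_le_one₀ hb1 (by linarith) (by linarith)
  have h2 : (b * (1 - x * ε)) ^ d ≤ (b * (1 - x * ε)) ^ (d - 1) :=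
    pow_le_pow_of_le_one h0.le h1 (by omega)
  refine le_trans ?_ h2
  rw [mul_pow]
  have h3 := one_add_mul_le_pow (a := -(x * ε)) (by linarith) d
  have h4 : (d : ℝ) * (x * ε) = x / 50 := by
    calc (d : ℝ) * (x * ε) = x * (ε * d) := by ring
      _ = _ := by rw [hεd]; ring
  have h5 : 1 - x / 50 ≤ (1 - x * ε) ^ d := by
    calc 1 - x / 50 = 1 + d * (-(x * ε)) := by rw [mul_neg, h4]; ring
      _ ≤ (1 + -(x * ε)) ^ d := h3
      _ = _ := by rw [← sub_eq_add_neg]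
  exact mul_le_mul_of_nonneg_left h5 (by positivity)

/-- the logarithm -/
theorem log_bound {D : ℝ} (hD : 1 ≤ D) :
    Real.log (1 + 2 / (1 / (50 * D))) ≤ 5 * (1 + Real.log D) := by
  have hD0 : 0 < D := by linarith
  have e1 : 1 + 2 / (1 / (50 * D)) ≤ 101 * D := by
    have : 2 / (1 / (50 * D)) = 100 * D := by field_simp; norm_num
    rw [this]
    linarith
  have e2 : Real.log (1 + 2 / (1 / (50 * D))) ≤ Real.log (101 * D) :=
    Real.log_le_log (by positivity) e1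
  rw [Real.log_mul (by norm_num) hD0.ne'] at e2
  have e3 : Real.log 101 ≤ 5 := by
    rw [Real.log_le_iff_le_exp (by norm_num)]
    have h2 : (2.7 : ℝ) ≤ Real.exp 1 := by
      have := Real.exp_one_gt_d9
      linarith
    have h3 : Real.exp 5 = Real.exp 1 ^ 5 := by
      rw [← Real.exp_nat_mul]; norm_num
    rw [h3]
    calc (101 : ℝ) ≤ 2.7 ^ 5 := by norm_num
      _ ≤ _ := pow_le_pow_left₀ (by norm_num) h2 5
  have e4 : 0 ≤ Real.log D := Real.log_nonneg hD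
  linarith

/-- **Main estimate.** -/
theorem main_prob (hd : 1 ≤ d) {l : ℝ} (hl : 1 / 2 ≤ l) (hl1 : l ≤ 1) {k : ℕ} (hk : 1 ≤ k)
    {Ω : Type} [MeasurableSpace Ω] (P : Measure Ω) [IsProbabilityMeasure P] {N : ℕ}
    (U : Fin N → Ω → E d) (R : Ω → Fin N → ℝ) (hU : ∀ i, Measurable (U i)) (hR : Measurable R)
    (hU1 : ∀ i ω, ‖U i ω‖ = 1) (hR0 : ∀ ω i, 0 < R ω i) (hind : iIndepFun U P)
    (hUR : IndepFun (fun ω i => U i ω) R P)
    (hlaw : ∀ i, ENNReal.ofReal (l ^ d) • sigma d ≤ P.map (U i)) :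
    P {ω | ¬ HullsCovered k (2500 * k * d ^ 2 * (1 + Real.log d) * base l ^ d) (fun i => U i ω) (R ω)} ≤
      ENNReal.ofReal (Real.exp (-d)) := by
  obtain ⟨α, β, h1, hα0, hβ0, hα2, hβ2, hα3, hβ1, hlβ, hαb⟩ :
      ∃ α β : ℝ, α ^ 2 + β ^ 2 = 1 ∧ 0 < α ∧ 0 < β ∧ 1 / 5 ≤ α ^ 2 ∧ 1 / 2 ≤ β ^ 2 ∧ α ≤ 3 / 4 ∧
        β ≤ 1 ∧ l * β = α ∧ α ^ d = (base l ^ d)⁻¹ := by
    obtain ⟨h1, hα0, hβ0, hα2, hβ2, hα3, hβ1, hlβ⟩ := heights hl hl1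
    exact ⟨_, _, h1, hα0, hβ0, hα2, hβ2, hα3, hβ1, hlβ, by rw [one_div, inv_pow]⟩
  have hl0 : 0 < l := by linarith
  have hD : (1 : ℝ) ≤ d := by exact_mod_cast hd
  have hD0 : (0 : ℝ) < d := by linarith
  obtain ⟨Λ, hΛ, hΛ1⟩ : ∃ Λ : ℝ, Λ = base l ^ d ∧ 1 ≤ Λ := by
    refine ⟨_, rfl, one_le_pow₀ ?_⟩
    rw [base]
    refine Real.one_le_sqrt.2 ?_
    have : 0 < 1 / l ^ 2 := by positivity
    linarith
  rw [← hΛ] at hαb ⊢
  have hΛ0 : 0 < Λ := by linarith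
  obtain ⟨ε, hε, hε0, hεd, hε1⟩ : ∃ ε : ℝ, ε = 1 / (50 * d) ∧ 0 < ε ∧ ε * d = 1 / 50 ∧
      ε ≤ 1 / 50 := by
    have h3 : 1 / (50 * (d : ℝ)) * d = 1 / 50 := by field_simp
    have h4 : 0 < 1 / (50 * (d : ℝ)) := by positivity
    refine ⟨_, rfl, h4, h3, ?_⟩
    calc 1 / (50 * (d : ℝ)) = 1 / (50 * (d : ℝ)) * 1 := by ring
      _ ≤ 1 / (50 * (d : ℝ)) * d := mul_le_mul_of_nonneg_left hD h4.le
      _ = _ := h3
  obtain ⟨L, hL, hLle, hL0⟩ : ∃ L : ℝ, L = Real.log (1 + 2 / ε) ∧ L ≤ 5 * (1 + Real.log d) ∧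
      0 ≤ L := by
    refine ⟨_, rfl, ?_, Real.log_nonneg ?_⟩
    · rw [hε]
      exact log_bound hD
    · have : 0 < 2 / ε := by positivity
      linarith
  have hlog0 : 0 ≤ Real.log d := Real.log_nonneg hD
  obtain ⟨hs₁, hs₂⟩ := params (D := d) hε0 hε1 h1 hα2 hβ2 hα3 hβ1
  have hb₁0 : 0 < β * (1 - 16 * ε) := mul_pos hβ0 (by linarith)
  have hb₂0 : 0 < α * (1 - 42 * ε) := mul_pos hα0 (by linarith)
  have hp₁ := pow_lower hd (x := 16) hεd hβ0 hβ1 hε0 (by norm_num) (by linarith)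
  have hp₂ := pow_lower hd (x := 42) hεd hα0 (by linarith) hε0 (by norm_num) (by linarith)
  generalize β * (1 - 16 * ε) = b₁ at hs₁ hb₁0 hp₁
  generalize α * (1 - 42 * ε) = b₂ at hs₂ hb₂0 hp₂
  have hlβd : l ^ d * β ^ d = Λ⁻¹ := by rw [← mul_pow, hlβ, hαb]
  obtain ⟨q₁, hq₁, hq₁1⟩ : ∃ q₁ : ℝ, q₁ = l ^ d * (ε * b₁ ^ (d - 1)) ∧
      68 / 5000 / d / Λ ≤ q₁ := by
    refine ⟨_, rfl, ?_⟩
    calc 68 / 5000 / d / Λ = ε * (68 / 100) * Λ⁻¹ := by rw [hε]; field_simp; norm_num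
      _ = l ^ d * (ε * (β ^ d * (1 - 16 / 50))) := by rw [← hlβd]; ring
      _ ≤ l ^ d * (ε * b₁ ^ (d - 1)) :=
        mul_le_mul_of_nonneg_left (mul_le_mul_of_nonneg_left hp₁ hε0.le) (by positivity)
  have hq₁0 : 0 < q₁ := lt_of_lt_of_le (by positivity) hq₁1
  have hq₂1 : 16 / 5000 / d / Λ ≤ ε * b₂ ^ (d - 1) := by
    calc 16 / 5000 / d / Λ = ε * (16 / 100) * Λ⁻¹ := by rw [hε]; field_simp; norm_num
      _ = ε * (α ^ d * (1 - 42 / 50)) := by rw [hαb]; ring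
      _ ≤ _ := mul_le_mul_of_nonneg_left hp₂ hε0.le
  have hA₁ := arith₁ hD hΛ1 hlog0 hLle hL0 hq₁1
  have hA₂ := arith₂ hD hΛ1 hlog0 hLle hL0 hq₂1
  obtain ⟨m, hm1, hm2⟩ : ∃ m : ℕ, (d * L + d) / q₁ ≤ m ∧ (m : ℝ) ≤ (d * L + d) / q₁ + 1 :=
    ⟨⌈(d * L + d) / q₁⌉₊, Nat.le_ceil _, (Nat.ceil_lt_add_one (by positivity)).le⟩
  have hk' : (1 : ℝ) ≤ k := by exact_mod_cast hk
  have hX0 : 0 ≤ (d : ℝ) ^ 2 * (1 + Real.log d) * Λ := by positivity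
  have hC : (k : ℝ) * m + (d * Real.log (1 + 2 / ε) / (ε * b₂ ^ (d - 1)) + 1) ≤
      2500 * k * d ^ 2 * (1 + Real.log d) * Λ := by
    rw [← hL]
    have e1 : (k : ℝ) * m ≤ k * (443 * ((d : ℝ) ^ 2 * (1 + Real.log d) * Λ)) :=
      mul_le_mul_of_nonneg_left (hm2.trans hA₁) (by positivity)
    have e2 : d * L / (ε * b₂ ^ (d - 1)) + 1 ≤
        k * (1564 * ((d : ℝ) ^ 2 * (1 + Real.log d) * Λ)) :=
      hA₂.trans (le_mul_of_one_le_left (by positivity) hk')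
    have e3 : 0 ≤ (k : ℝ) * ((d : ℝ) ^ 2 * (1 + Real.log d) * Λ) := by positivity
    have e4 : 2500 * k * d ^ 2 * (1 + Real.log d) * Λ =
        2500 * ((k : ℝ) * ((d : ℝ) ^ 2 * (1 + Real.log d) * Λ)) := by ring
    rw [e4]
    linarith
  have hmain := good_prob hd (δ := ε) (h := ε) (t₁ := α + ε) (t₂ := β) (q := l ^ d)
    (by positivity) hβ0 (by nlinarith) hε0 hε0 hb₁0 hb₂0 hs₁ hs₂ (by positivity) m k hC P U R hU hR
    hU1 hR0 hind hUR hlaw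
  refine hmain.trans (ENNReal.ofReal_le_ofReal ?_)
  have e1 : (1 + 2 / ε) ^ d = Real.exp (d * L) := by
    have h3 : 0 < 1 + 2 / ε := by positivity
    rw [hL, mul_comm, Real.exp_mul, Real.exp_log h3, Real.rpow_natCast]
  rw [e1, ← Real.exp_add, Real.exp_le_exp, ← hq₁]
  have e2 : d * L + d ≤ q₁ * m := by
    have := (div_le_iff₀ hq₁0).1 hm1
    linarith [mul_comm (m : ℝ) q₁]
  linarith

end Pool.Agent.J4H22.RP
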