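import Mathlib
import Pool.Agent.J4H22.RP.Main

/-!
# Random polytopes given by their vertices: final statements
-/

set_option autoImplicit false

open MeasureTheory Set ProbabilityTheory Filter Topology
open scoped RealInnerProductSpace ENNReal

namespace Pool.Agent.J4H22.RP

open Pool.Agent.PZ871 (E)
open Pool.Agent.TH84.HC

variable {d : ℕ}

/-- Random vectors `R i • U i`: the directions `U i` are independent unit vectors and the law of each
of them is at least `l ^ d` times the uniform distribution on the unit sphere (for `l = 1` it is the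
uniform distribution); the lengths `R i` are positive random numbers with arbitrary joint
distribution, independent of the directions. -/
structure RandomVectors {d N : ℕ} (l : ℝ) {Ω : Type} [MeasurableSpace Ω] (P : Measure Ω)
    (U : Fin N → Ω → E d) (R : Ω → Fin N → ℝ) : Prop where
  measU : ∀ i, Measurable (U i)
  measR : Measurable R
  unit : ∀ i ω, ‖U i ω‖ = 1
  pos : ∀ ω i, 0 < R ω i
  indep : iIndepFun U P
  indepR : IndepFun (fun ω i => U i ω) R P
  law : ∀ i, ENNReal.ofReal (l ^ d) • sigma d ≤ P.map (U i)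

theorem HullsCovered.mono {N k : ℕ} {C C' : ℝ} {v : Fin N → E d} {r : Fin N → ℝ}
    (h : HullsCovered k C v r) (hC : C ≤ C') : HullsCovered k C' v r := by
  intro W h1 h2 h3 h4
  obtain ⟨T, hT, hT'⟩ := h W h1 h2 h3 h4
  exact ⟨T, hT.trans hC, hT'⟩

/-- the main estimate -/
theorem vert (hd : 1 ≤ d) {l : ℝ} (hl : 1 / 2 ≤ l) (hl1 : l ≤ 1) {k : ℕ} (hk : 1 ≤ k)
    {Ω : Type} [MeasurableSpace Ω] (P : Measure Ω) [IsProbabilityMeasure P] {N : ℕ}
    (U : Fin N → Ω → E d) (R : Ω → Fin N → ℝ) (h : RandomVectors l P U R) :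
    P {ω | ¬ HullsCovered k (2500 * k * d ^ 2 * (1 + Real.log d) * √(1 + 1 / l ^ 2) ^ d)
      (fun i => U i ω) (R ω)} ≤ ENNReal.ofReal (Real.exp (-d)) :=
  main_prob hd hl hl1 hk P U R h.measU h.measR h.unit h.pos h.indep h.indepR h.law

/-- exponentially fewer than `2 ^ d` -/
theorem vert_lt {l : ℝ} (hl : 1 / √3 < l) (hl1 : l ≤ 1) :
    ∃ c : ℝ, c < 2 ∧ ∃ γ : ℝ, 1 < γ ∧ ∃ d₀ : ℕ, ∀ d : ℕ, d₀ ≤ d → ∀ k : ℕ, 1 ≤ k →
      (k : ℝ) ≤ γ ^ d → ∀ (Ω : Type) [MeasurableSpace Ω] (P : Measure Ω) [IsProbabilityMeasure P]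
      (N : ℕ) (U : Fin N → Ω → E d) (R : Ω → Fin N → ℝ), RandomVectors l P U R →
      P {ω | ¬ HullsCovered k (c ^ d) (fun i => U i ω) (R ω)} ≤
        ENNReal.ofReal (Real.exp (-d)) := by
  have h30 : 0 < √3 := Real.sqrt_pos.2 (by norm_num)
  have h3 : √3 ^ 2 = 3 := Real.sq_sqrt (by norm_num)
  have hl0 : 0 < l := lt_trans (by positivity) hl
  have hl2 : 1 < 3 * l ^ 2 := by
    rw [div_lt_iff₀ h30] at hl
    nlinarith
  have hlh : 1 / 2 ≤ l := by nlinarith
  set b : ℝ := √(1 + 1 / l ^ 2) with hb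
  have hb1 : 1 ≤ b := by
    rw [hb]
    refine Real.one_le_sqrt.2 ?_
    have : 0 < 1 / l ^ 2 := by positivity
    linarith
  have hb2 : b < 2 := by
    rw [hb, Real.sqrt_lt' (by norm_num)]
    have : 1 / l ^ 2 < 3 := by
      rw [div_lt_iff₀ (by positivity)]
      exact hl2
    linarith
  clear_value b
  have hb0 : 0 < b := by linarith
  set c : ℝ := (b + 2) / 2 with hc
  set a : ℝ := (b + c) / 2 with ha
  have hbc : b < c := by rw [hc]; linarith
  have hba : b < a := by rw [ha]; linarith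
  have hac : a < c := by rw [ha]; linarith
  have hc2 : c < 2 := by rw [hc]; linarith
  clear_value c a
  have hc0 : 0 < c := by linarith
  have ha0 : 0 < a := by linarith
  have hlim : Tendsto (fun n : ℕ => 2500 * ((n : ℝ) ^ 3 * (a / c) ^ n)) atTop (𝓝 (2500 * 0)) := by
    refine Tendsto.const_mul _ (tendsto_pow_const_mul_const_pow_of_abs_lt_one 3 ?_)
    rw [abs_of_pos (by positivity), div_lt_one hc0]
    exact hac
  rw [mul_zero] at hlim
  obtain ⟨d₁, hd₁⟩ := Filter.eventually_atTop.1 (hlim.eventually_le_const (show (0:ℝ) < 1 by norm_num))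
  refine ⟨c, hc2, a / b, (one_lt_div hb0).2 hba, max d₁ 1, ?_⟩
  intro d hd k hk hkγ Ω _ P _ N U R h
  have hd1 : 1 ≤ d := (le_max_right _ _).trans hd
  have hD : (1 : ℝ) ≤ d := by exact_mod_cast hd1
  have hv := vert hd1 hlh hl1 hk P U R h
  rw [← hb] at hv
  refine le_trans (measure_mono ?_) hv
  intro ω hω hgood
  apply hω
  refine hgood.mono ?_
  have h4 := hd₁ d ((le_max_left _ _).trans hd)
  have hlog : 1 + Real.log d ≤ d := by
    have := Real.log_le_sub_one_of_pos (show (0:ℝ) < d by linarith)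
    linarith
  have hlog0 : 0 ≤ Real.log d := Real.log_nonneg hD
  calc 2500 * k * (d:ℝ) ^ 2 * (1 + Real.log d) * b ^ d
      ≤ 2500 * (a / b) ^ d * (d:ℝ) ^ 2 * d * b ^ d := by gcongr
    _ = 2500 * (d:ℝ) ^ 3 * ((a / b) ^ d * b ^ d) := by ring
    _ = 2500 * (d:ℝ) ^ 3 * a ^ d := by rw [← mul_pow, div_mul_cancel₀ _ hb0.ne']
    _ = 2500 * ((d:ℝ) ^ 3 * (a / c) ^ d) * c ^ d := by
        rw [div_pow]
        field_simp
    _ ≤ 1 * c ^ d := by gcongr
    _ = c ^ d := one_mul _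

theorem num_aux {d : ℕ} (hd : 60 ≤ d) : 500 * (d : ℝ) ^ 3 + 1 ≤ √2 ^ d := by
  induction d, hd using Nat.le_induction with
  | base =>
    have : √2 ^ 60 = 2 ^ 30 := by
      rw [show 60 = 2 * 30 by norm_num, pow_mul, Real.sq_sqrt (by norm_num)]
    rw [this]
    norm_num
  | succ n hn ih =>
    have hs : (1.41 : ℝ) ≤ √2 := by
      refine Real.le_sqrt_of_sq_le ?_
      norm_num
    have hn' : (60 : ℝ) ≤ n := by exact_mod_cast hn
    have h1 : √2 ^ (n + 1) = √2 ^ n * √2 := pow_succ _ _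
    rw [h1]
    have h2 : (500 * (n : ℝ) ^ 3 + 1) * 1.41 ≤ √2 ^ n * √2 := by gcongr
    refine le_trans ?_ h2
    push_cast
    have h3 : (n : ℝ) ^ 2 * 60 ≤ n ^ 3 := by nlinarith [sq_nonneg (n : ℝ)]
    have h4 : (n : ℝ) * 3600 ≤ n ^ 3 := by nlinarith [sq_nonneg (n : ℝ)]
    have h5 : (216000 : ℝ) ≤ n ^ 3 := by
      calc (216000 : ℝ) = 60 ^ 3 := by norm_num
        _ ≤ _ := by gcongr
    nlinarith

theorem num_bound {d : ℕ} (hd : 60 ≤ d) :
    2500 * (2 : ℕ) * (d : ℝ) ^ 2 * (1 + Real.log d) * √(1 + 1 / 1 ^ 2) ^ d ≤ 2 ^ d - 1 := by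
  have hD : (60 : ℝ) ≤ d := by exact_mod_cast hd
  have hD0 : (0 : ℝ) < d := by linarith
  have e1 : √(1 + 1 / 1 ^ 2) = √2 := by norm_num
  have e2 : (2 : ℝ) ^ d = √2 ^ d * √2 ^ d := by
    rw [← mul_pow, Real.mul_self_sqrt (by norm_num)]
  have hlog : 1 + Real.log d ≤ d / 10 := by
    have h1 : Real.log d = Real.log 60 + Real.log (d / 60) := by
      rw [← Real.log_mul (by norm_num) (by positivity)]
      congr 1
      field_simp
    have h2 : Real.log (d / 60) ≤ d / 60 - 1 := Real.log_le_sub_one_of_pos (by positivity)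
    have h3 : Real.log 60 ≤ 5 := by
      rw [Real.log_le_iff_le_exp (by norm_num)]
      have h2 : (2.7 : ℝ) ≤ Real.exp 1 := by
        have := Real.exp_one_gt_d9
        linarith
      have h3 : Real.exp 5 = Real.exp 1 ^ 5 := by
        rw [← Real.exp_nat_mul]; norm_num
      rw [h3]
      calc (60 : ℝ) ≤ 2.7 ^ 5 := by norm_num
        _ ≤ _ := pow_le_pow_left₀ (by norm_num) h2 5
    rw [h1]
    linarith
  have hn := num_aux hd
  rw [e1, e2]
  have hs1 : 1 ≤ √2 ^ d := one_le_pow₀ (Real.one_le_sqrt.2 (by norm_num))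
  push_cast
  calc 2500 * 2 * (d : ℝ) ^ 2 * (1 + Real.log d) * √2 ^ d
      ≤ 2500 * 2 * (d : ℝ) ^ 2 * (d / 10) * √2 ^ d := by gcongr
    _ = (500 * (d : ℝ) ^ 3) * √2 ^ d := by ring
    _ ≤ (√2 ^ d - 1) * √2 ^ d := by gcongr; linarith
    _ ≤ √2 ^ d * √2 ^ d - 1 := by
        rw [sub_mul, one_mul]
        linarith

/-- the uniform case with an explicit dimension -/
theorem vert_two (hd : 60 ≤ d) {Ω : Type} [MeasurableSpace Ω] (P : Measure Ω)
    [IsProbabilityMeasure P] {N : ℕ} (U : Fin N → Ω → E d) (R : Ω → Fin N → ℝ)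
    (h : RandomVectors 1 P U R) :
    P {ω | ¬ HullsCovered 2 (2 ^ d - 1) (fun i => U i ω) (R ω)} ≤
      ENNReal.ofReal (Real.exp (-d)) := by
  have hv := vert (by omega) (by norm_num) le_rfl (k := 2) (by norm_num) P U R h
  refine le_trans (measure_mono ?_) hv
  intro ω hω hgood
  exact hω (hgood.mono (num_bound hd))

/-- **Random polytopes given by their vertices.** -/
theorem vertices :
    (∀ d : ℕ, 1 ≤ d → ∀ l : ℝ, 1 / 2 ≤ l → l ≤ 1 → ∀ k : ℕ, 1 ≤ k →
      ∀ (Ω : Type) [MeasurableSpace Ω] (P : Measure Ω) [IsProbabilityMeasure P] (N : ℕ)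
        (U : Fin N → Ω → E d) (R : Ω → Fin N → ℝ), RandomVectors l P U R →
      P {ω | ¬ HullsCovered k (2500 * k * d ^ 2 * (1 + Real.log d) * √(1 + 1 / l ^ 2) ^ d)
        (fun i => U i ω) (R ω)} ≤ ENNReal.ofReal (Real.exp (-d))) ∧
    (∀ l : ℝ, 1 / √3 < l → l ≤ 1 → ∃ c : ℝ, c < 2 ∧ ∃ γ : ℝ, 1 < γ ∧ ∃ d₀ : ℕ, ∀ d : ℕ, d₀ ≤ d →
      ∀ k : ℕ, 1 ≤ k → (k : ℝ) ≤ γ ^ d →
      ∀ (Ω : Type) [MeasurableSpace Ω] (P : Measure Ω) [IsProbabilityMeasure P] (N : ℕ)
        (U : Fin N → Ω → E d) (R : Ω → Fin N → ℝ), RandomVectors l P U R →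
      P {ω | ¬ HullsCovered k (c ^ d) (fun i => U i ω) (R ω)} ≤ ENNReal.ofReal (Real.exp (-d))) ∧
    (∀ d : ℕ, 60 ≤ d →
      ∀ (Ω : Type) [MeasurableSpace Ω] (P : Measure Ω) [IsProbabilityMeasure P] (N : ℕ)
        (U : Fin N → Ω → E d) (R : Ω → Fin N → ℝ), RandomVectors 1 P U R →
      P {ω | ¬ HullsCovered 2 (2 ^ d - 1) (fun i => U i ω) (R ω)} ≤
        ENNReal.ofReal (Real.exp (-d))) :=
  ⟨fun _ hd _ hl hl1 _ hk _ _ P _ _ U R h => vert hd hl hl1 hk P U R h,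
    fun _ hl hl1 => vert_lt hl hl1,
    fun _ hd _ _ P _ _ U R h => vert_two hd P U R h⟩

end Pool.Agent.J4H22.RP
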